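import Pool.Agent.Y892.DP.Stm2

/-! # Project DP, ZPAIR and DZC: invariant characters of defect zero and commutators -/

set_option autoImplicit false
set_option linter.unusedSectionVars false
set_option linter.style.haveILetI false

open scoped BigOperators Classical
open Representation Pool.Agent.Helper884.IC

noncomputable section

namespace Pool.Agent.Y813.DP

open Pool.Agent.Y892.DP
open Pool.Agent.Y63.AWC (IsIrreducibleCharacter one_ne top_scalar irr_comp)
open Pool.Agent.Y63.KR (conjSub)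

section gen

variable {G : Type} [Group G] [Fintype G]

/-- the sum over the conjugates acts as a scalar -/
lemma conj_scalar {V : Type} [AddCommGroup V] [Module ℂ V] [FiniteDimensional ℂ V]
    (rho : Representation ℂ G V) (hr : rho.IsIrreducible) (a : G) :
    ∑ b : G, rho (b * a * b⁻¹) =
      ((Nat.card G : ℂ) * rho.character a / rho.character 1) • (LinearMap.id : V →ₗ[ℂ] V) := by
  have hirr : IsIrrChar rho.character := ⟨V, _, _, ‹_›, rho, hr, rfl⟩
  have hn : rho.character 1 ≠ 0 := one_ne hirr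
  have hcG := cardG_ne (G := G)
  let f : G → ℂ := fun x => ∑ b : G, if b * a⁻¹ * b⁻¹ = x then (1 : ℂ) else 0
  have hf : IsClass f := by
    intro x y
    simp only [f]
    refine Fintype.sum_equiv (Equiv.mulLeft y⁻¹) _ _ fun b => ?_
    congr 1
    rw [Equiv.coe_mulLeft]
    apply propext
    constructor
    · intro h
      calc y⁻¹ * b * a⁻¹ * (y⁻¹ * b)⁻¹ = y⁻¹ * (b * a⁻¹ * b⁻¹) * y := by group
        _ = x := by rw [h]; group
    · intro h
      calc b * a⁻¹ * b⁻¹ = y * (y⁻¹ * b * a⁻¹ * (y⁻¹ * b)⁻¹) * y⁻¹ := by group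
        _ = y * x * y⁻¹ := by rw [h]
  obtain ⟨c, hc⟩ := top_scalar rho hr f hf
  have e1 : Pool.Agent.Helper884.IC.Top rho f = ∑ b : G, rho (b * a * b⁻¹) := by
    unfold Pool.Agent.Helper884.IC.Top
    simp only [f, Finset.sum_smul]
    rw [Finset.sum_comm]
    refine Finset.sum_congr rfl fun b _ => ?_
    rw [Finset.sum_eq_single (b * a⁻¹ * b⁻¹)]
    · rw [if_pos rfl, one_smul]
      congr 1
      group
    · intro x _ hx
      rw [if_neg (fun h => hx h.symm), zero_smul]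
    · intro h
      exact absurd (Finset.mem_univ _) h
  rw [← e1, hc]
  congr 1
  have h2 := congrArg (LinearMap.trace ℂ V) hc
  rw [e1, map_sum, map_smul, LinearMap.trace_id, smul_eq_mul, ← rho.char_one] at h2
  have h3 : ∀ b : G, LinearMap.trace ℂ V (rho (b * a * b⁻¹)) = rho.character a := by
    intro b
    exact rho.char_conj a b
  rw [Finset.sum_congr rfl fun b _ => h3 b, Finset.sum_const, Finset.card_univ, nsmul_eq_mul,
    ← Nat.card_eq_fintype_card] at h2
  rw [h2]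
  field_simp

/-- `∑_m χ(a m b m⁻¹) = |G| χ(a) χ(b) / χ(1)` -/
lemma sum_conj {chi : G → ℂ} (h : IsIrrChar chi) (a b : G) :
    ∑ m : G, chi (a * (m * b * m⁻¹)) = (Nat.card G : ℂ) / chi 1 * (chi a * chi b) := by
  obtain ⟨V, _, _, _, rho, hr, rfl⟩ := h
  have h1 := conj_scalar rho hr b
  have h2 : ∑ m : G, rho.character (a * (m * b * m⁻¹)) =
      LinearMap.trace ℂ V (rho a * ∑ m : G, rho (m * b * m⁻¹)) := by
    rw [Finset.mul_sum, map_sum]
    refine Finset.sum_congr rfl fun m _ => ?_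
    rw [← map_mul]
    rfl
  rw [h2, h1]
  have h3 : rho a * (((Nat.card G : ℂ) * rho.character b / rho.character 1) •
      (LinearMap.id : V →ₗ[ℂ] V)) =
      ((Nat.card G : ℂ) * rho.character b / rho.character 1) • rho a := by
    ext v
    simp
  rw [h3, map_smul, smul_eq_mul]
  show _ * rho.character a = _
  ring

end gen

section dzz

variable {G : Type} [Group G]

lemma conj_mem {N : Subgroup G} {x : G} (h : conjSub x N = N) (g : G) : x * g * x⁻¹ ∈ N ↔ g ∈ N := by
  constructor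
  · intro hg
    rw [← h] at hg
    obtain ⟨y, hy, hyg⟩ := Subgroup.mem_map.1 hg
    have h1 : x * y * x⁻¹ = x * g * x⁻¹ := hyg
    have h2 : y = g := by simpa using h1
    rw [← h2]
    exact hy
  · intro hg
    rw [← h]
    exact Subgroup.mem_map.2 ⟨g, hg, rfl⟩

/-- conjugation by `x` on `N` -/
def cjE {N : Subgroup G} {x : G} (h : conjSub x N = N) : N ≃* N where
  toFun n := ⟨x * n * x⁻¹, (conj_mem h n).2 n.2⟩
  invFun n := ⟨x⁻¹ * n * x, (conj_mem h _).1 (by
    have : x * (x⁻¹ * (n : G) * x) * x⁻¹ = n := by group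
    rw [this]; exact n.2)⟩
  left_inv n := Subtype.ext (by show x⁻¹ * (x * (n : G) * x⁻¹) * x = n; group)
  right_inv n := Subtype.ext (by show x * (x⁻¹ * (n : G) * x) * x⁻¹ = n; group)
  map_mul' a b := Subtype.ext (by
    show x * ((a : G) * b) * x⁻¹ = x * a * x⁻¹ * (x * b * x⁻¹); group)

/-- the irreducible characters of defect zero -/
abbrev DZt (p : ℕ) (N : Subgroup G) : Type :=
  {ψ : N → ℂ // IsIrreducibleCharacter ψ ∧
      ∃ n : ℕ, ψ 1 = (n : ℂ) ∧ n.factorization p = (Nat.card N).factorization p}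

/-- conjugation of characters of defect zero -/
def cjD (p : ℕ) {N : Subgroup G} (e : N ≃* N) : DZt p N ≃ DZt p N where
  toFun ψ := ⟨fun g => ψ.1 (e g), irr_comp e ψ.2.1, by
    obtain ⟨n, hn1, hn2⟩ := ψ.2.2
    exact ⟨n, by show ψ.1 (e 1) = _; rw [map_one, hn1], hn2⟩⟩
  invFun ψ := ⟨fun g => ψ.1 (e.symm g), irr_comp e.symm ψ.2.1, by
    obtain ⟨n, hn1, hn2⟩ := ψ.2.2
    exact ⟨n, by show ψ.1 (e.symm 1) = _; rw [map_one, hn1], hn2⟩⟩
  left_inv ψ := Subtype.ext (funext fun g => by simp)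
  right_inv ψ := Subtype.ext (funext fun g => by simp)

/-- DZC -/
theorem dzc : S_DZC := by
  intro p G _ _ N x g h
  unfold dz
  by_cases hg : g ∈ N
  · rw [dif_pos hg, dif_pos ((conj_mem h g).2 hg)]
    congr 1
    refine Eq.trans (finsum_congr fun ψ => ?_) (finsum_comp_equiv (cjD p (cjE h))
      (f := fun ψ : DZt p N => ψ.1 1 * ψ.1 ⟨g, hg⟩))
    show _ = ψ.1 (cjE h 1) * ψ.1 (cjE h ⟨g, hg⟩)
    rw [map_one]
    rfl
  · rw [dif_neg hg, dif_neg (fun h1 => hg ((conj_mem h g).1 h1))]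

/-- ZPAIR -/
theorem zpair : S_ZPAIR := by
  intro p _ G _ _ N e h
  haveI := Fintype.ofFinite N
  have hfin : Finite (DZt p N) :=
    Set.Finite.to_subtype (Set.Finite.subset (irr_finite (G := N)) (fun ψ h => h.1))
  haveI := Fintype.ofFinite (DZt p N)
  have hcN := cardG_ne (G := N)
  set c : N ≃* N := (cjE h).symm with hc
  have hcv : ∀ n : N, ((c n : N) : G) = e⁻¹ * n * e := fun n => rfl
  -- the number of invariant characters
  have h1 : (invZero p N e : ℂ) = ∑ ψ : DZt p N, B (fun n => ψ.1 (c n)) ψ.1 := by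
    have h2 : invZero p N e = Nat.card {ψ : DZt p N // (fun n => ψ.1 (c n)) = ψ.1} := by
      unfold invZero
      refine Nat.card_congr ⟨fun ψ => ⟨⟨ψ.1, ψ.2.1, ψ.2.2.1⟩, ?_⟩, fun ψ => ⟨ψ.1.1, ψ.1.2.1, ψ.1.2.2, ?_⟩,
        fun ψ => rfl, fun ψ => rfl⟩
      · funext n
        refine (ψ.2.2.2 (c n) n ?_).symm
        rw [hcv]
        group
      · intro g g' hgg
        have h3 := congrFun ψ.2 g'
        have h4 : c g' = g := by
          apply Subtype.ext
          rw [hcv, hgg]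
          group
        simp only [h4] at h3
        exact h3.symm
    rw [h2, Nat.card_eq_fintype_card, Fintype.card_subtype, Finset.card_filter, Nat.cast_sum]
    refine Finset.sum_congr rfl fun ψ _ => ?_
    rw [B_irr (irr_comp c ψ.2.1) ψ.2.1]
    push_cast
    rfl
  -- the commutators
  have h5 : ∀ x m : N, dz p N ((x : G) * (e * m) * (x : G)⁻¹ * (e * (m : G))⁻¹) =
      (Nat.card N : ℂ)⁻¹ * ∑ ψ : DZt p N, ψ.1 1 * ψ.1 (c x * (m * x⁻¹ * m⁻¹)) := by
    intro x m
    have h6 : (x : G) * (e * m) * (x : G)⁻¹ * (e * (m : G))⁻¹ =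
        e * ((c x * (m * x⁻¹ * m⁻¹) : N) : G) * e⁻¹ := by
      show _ = e * (e⁻¹ * (x : G) * e * ((m : G) * (x : G)⁻¹ * (m : G)⁻¹)) * e⁻¹
      group
    rw [h6, dzc p G N e _ h]
    unfold dz
    rw [dif_pos (Subtype.prop _), finsum_eq_sum_of_fintype]
  have h7 : pairSum N ⊤ e (fun x y => dz p N (x * y * x⁻¹ * y⁻¹)) 0 1 =
      ∑ x : N, ∑ m : N, dz p N ((x : G) * (e * m) * (x : G)⁻¹ * (e * (m : G))⁻¹) := by
    unfold pairSum
    rw [← Fintype.sum_prod_type', ← finsum_eq_sum_of_fintype]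
    let E : {q : G × G // (e ^ 0)⁻¹ * q.1 ∈ N ∧ (e ^ 1)⁻¹ * q.2 ∈ N ∧ q.1 ∈ (⊤ : Subgroup G) ∧
        q.2 ∈ (⊤ : Subgroup G)} ≃ N × N :=
      { toFun := fun q => (⟨q.1.1, by simpa using q.2.1⟩, ⟨e⁻¹ * q.1.2, by simpa using q.2.2.1⟩)
        invFun := fun q => ⟨((q.1 : G), e * (q.2 : G)), by simp⟩
        left_inv := fun q => Subtype.ext (Prod.ext rfl (by show e * (e⁻¹ * q.1.2) = q.1.2; group))
        right_inv := fun q => Prod.ext rfl (Subtype.ext (by
          show e⁻¹ * (e * (q.2 : G)) = q.2; group)) }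
    rw [← finsum_comp_equiv E]
    apply finsum_congr
    intro q
    show _ = dz p N (q.1.1 * (e * (e⁻¹ * q.1.2)) * (q.1.1)⁻¹ * (e * (e⁻¹ * q.1.2))⁻¹)
    rw [mul_inv_cancel_left]
  rw [h7]
  have h8 : ∀ x : N, ∑ m : N, dz p N ((x : G) * (e * m) * (x : G)⁻¹ * (e * (m : G))⁻¹) =
      ∑ ψ : DZt p N, ψ.1 (c x) * ψ.1 x⁻¹ := by
    intro x
    rw [Finset.sum_congr rfl fun m _ => h5 x m, ← Finset.mul_sum, Finset.sum_comm, Finset.mul_sum]
    refine Finset.sum_congr rfl fun ψ _ => ?_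
    rw [← Finset.mul_sum, sum_conj ψ.2.1]
    have h9 : ψ.1 1 ≠ 0 := one_ne ψ.2.1
    field_simp
  rw [Finset.sum_congr rfl fun x _ => h8 x, Finset.sum_comm, h1, Finset.mul_sum]
  refine Finset.sum_congr rfl fun ψ _ => ?_
  unfold B
  rw [mul_inv_cancel_left₀ hcN]

end dzz

end Pool.Agent.Y813.DP
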